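import Mathlib

/-!
The entropy of a partition of at most `n` points into at least `k` nonempty parts.
-/

namespace Pool.Agent.H37.Box

open Finset

/-- The entropy of the distribution `(x - p, 1, ..., 1) / x` with `p` ones. -/
noncomputable def ent (p x : ℝ) : ℝ := Real.log x - (x - p) / x * Real.log (x - p)

theorem ent_antitone {p : ℝ} (hp : 0 ≤ p) : AntitoneOn (ent p) (Set.Ici (p + 1)) := by
  have hderiv : ∀ x : ℝ, p + 1 ≤ x → HasDerivAt (ent p) (-(p / x ^ 2 * Real.log (x - p))) x := by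
    intro x hx
    have hx0 : 0 < x := by linarith
    have hxp : 0 < x - p := by linarith
    have h1 : HasDerivAt (fun y : ℝ => Real.log y) (x⁻¹) x := Real.hasDerivAt_log hx0.ne'
    have h2 : HasDerivAt (fun y : ℝ => y - p) 1 x := (hasDerivAt_id x).sub_const p
    have h3 : HasDerivAt (fun y : ℝ => (y - p) / y) ((1 * x - (x - p) * 1) / x ^ 2) x :=
      h2.div (hasDerivAt_id x) hx0.ne'
    have h4 : HasDerivAt (fun y : ℝ => Real.log (y - p)) (1 / (x - p)) x := h2.log hxp.ne'
    have h5 := h1.sub (h3.mul h4)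
    refine h5.congr_deriv ?_
    field_simp
    ring
  refine antitoneOn_of_deriv_nonpos (convex_Ici _) ?_ ?_ ?_
  · intro x hx
    exact (hderiv x hx).continuousAt.continuousWithinAt
  · intro x hx
    rw [interior_Ici] at hx
    exact (hderiv x hx.le).differentiableAt.differentiableWithinAt
  · intro x hx
    rw [interior_Ici] at hx
    have hx' : p + 1 < x := hx
    rw [(hderiv x hx'.le).deriv, neg_nonpos]
    have : 0 ≤ Real.log (x - p) := Real.log_nonneg (by linarith)
    positivity

/-- Parts of size at least one, at most `r`, with total excess at most `r - 1`. -/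
theorem sum_mul_log_le {ι : Type*} (J : Finset ι) (s : ι → ℝ) (r : ℝ) (h1 : ∀ j ∈ J, 1 ≤ s j)
    (hr : ∀ j ∈ J, s j ≤ r) (hr1 : 1 ≤ r) (hsum : ∑ j ∈ J, (s j - 1) ≤ r - 1) :
    ∑ j ∈ J, s j * Real.log (s j) ≤ r * Real.log r := by
  rcases eq_or_lt_of_le hr1 with hr2 | hr2
  · subst hr2
    rw [Real.log_one, mul_zero]
    refine Finset.sum_nonpos fun j hj => ?_
    have : s j = 1 := le_antisymm (hr j hj) (h1 j hj)
    rw [this, Real.log_one, mul_zero]
  · have hpos : 0 < r - 1 := by linarith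
    have key : ∀ j ∈ J, s j * Real.log (s j) ≤ (s j - 1) / (r - 1) * (r * Real.log r) := by
      intro j hj
      have hc := Real.convexOn_mul_log
      have hs1 := h1 j hj
      have hsr := hr j hj
      have hθ0 : 0 ≤ (s j - 1) / (r - 1) := div_nonneg (by linarith) hpos.le
      have hθ1 : 0 ≤ 1 - (s j - 1) / (r - 1) := by
        rw [sub_nonneg, div_le_one hpos]
        linarith
      have h := hc.2 (x := 1) (y := r) (by simp) (by simp; linarith) hθ1 hθ0 (by ring)
      simp only [smul_eq_mul, Real.log_one, mul_zero, zero_add, mul_one] at h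
      have he : 1 - (s j - 1) / (r - 1) + (s j - 1) / (r - 1) * r = s j := by
        field_simp
        ring
      rw [he] at h
      exact h
    refine le_trans (Finset.sum_le_sum key) ?_
    rw [← Finset.sum_mul, ← Finset.sum_div]
    have hl : 0 ≤ r * Real.log r := mul_nonneg (by linarith) (Real.log_nonneg hr1)
    have : (∑ j ∈ J, (s j - 1)) / (r - 1) ≤ 1 := by
      rw [div_le_one hpos]
      exact hsum
    nlinarith

/-- The entropy inequality on a line. -/
theorem line_entropy {ι : Type*} (J : Finset ι) (s : ι → ℕ) (n k : ℕ) (hk : 1 ≤ k)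
    (hJ : k ≤ J.card) (h1 : ∀ j ∈ J, 1 ≤ s j) (hn : ∑ j ∈ J, s j ≤ n) :
    ((∑ j ∈ J, s j : ℕ) : ℝ) * ent ((k : ℝ) - 1) n ≤
      ∑ j ∈ J, (s j : ℝ) * (Real.log ((∑ j ∈ J, s j : ℕ) : ℝ) - Real.log (s j)) := by
  set c : ℕ := ∑ j ∈ J, s j with hc
  have hcard : J.card ≤ c := by
    rw [hc, Finset.card_eq_sum_ones]
    exact Finset.sum_le_sum h1
  have hkc : k ≤ c := hJ.trans hcard
  have hk' : (1 : ℝ) ≤ k := by exact_mod_cast hk
  have hkc' : (k : ℝ) ≤ c := by exact_mod_cast hkc
  have hn' : (c : ℝ) ≤ n := by exact_mod_cast hn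
  have hJ' : (k : ℝ) ≤ J.card := by exact_mod_cast hJ
  have hc' : (c : ℝ) = ∑ j ∈ J, (s j : ℝ) := by
    rw [hc]
    push_cast
    rfl
  have hcpos : (0 : ℝ) < c := by linarith
  have hsum1 : ∑ j ∈ J, ((s j : ℝ) - 1) = c - J.card := by
    rw [Finset.sum_sub_distrib, ← hc']
    simp
  have hA := sum_mul_log_le J (fun j => (s j : ℝ)) ((c : ℝ) - k + 1)
    (fun j hj => by exact_mod_cast h1 j hj)
    (fun j hj => by
      have h2 : (s j : ℝ) - 1 ≤ ∑ j ∈ J, ((s j : ℝ) - 1) :=
        Finset.single_le_sum (f := fun j => (s j : ℝ) - 1) (fun i hi => by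
          have : (1 : ℝ) ≤ s i := by exact_mod_cast h1 i hi
          linarith) hj
      rw [hsum1] at h2
      linarith)
    (by linarith)
    (by rw [hsum1]; linarith)
  have hB := ent_antitone (p := (k : ℝ) - 1) (by linarith) (a := (c : ℝ)) (b := (n : ℝ))
    (by simp; linarith) (by simp; linarith) hn'
  have hC : (c : ℝ) * ent ((k : ℝ) - 1) c =
      c * Real.log c - ((c : ℝ) - k + 1) * Real.log ((c : ℝ) - k + 1) := by
    unfold ent
    have : (c : ℝ) - ((k : ℝ) - 1) = c - k + 1 := by ring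
    rw [this]
    field_simp
  have hD : ∑ j ∈ J, (s j : ℝ) * (Real.log (c : ℝ) - Real.log (s j)) =
      c * Real.log c - ∑ j ∈ J, (s j : ℝ) * Real.log (s j) := by
    simp_rw [mul_sub]
    rw [Finset.sum_sub_distrib, ← Finset.sum_mul, ← hc']
  rw [hD]
  calc (c : ℝ) * ent ((k : ℝ) - 1) n ≤ c * ent ((k : ℝ) - 1) c :=
        mul_le_mul_of_nonneg_left hB hcpos.le
    _ ≤ _ := by
        rw [hC]
        linarith

end Pool.Agent.H37.Box
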