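import Pool.Agent.H37.Box.Han
import Pool.Agent.H37.Box.Line

/-!
The entropy bound for families of disjoint boxes with the `k`-piercing property.
-/

namespace Pool.Agent.H37.Box

open Finset

variable {n d m : ℕ}

/-- The box with sides `S j i`. -/
def box (S : Fin m → Fin d → Finset (Fin n)) (j : Fin m) : Finset (Fin d → Fin n) :=
  Fintype.piFinset (S j)

theorem mem_box {S : Fin m → Fin d → Finset (Fin n)} {j : Fin m} {x : Fin d → Fin n} :
    x ∈ box S j ↔ ∀ l, x l ∈ S j l := by
  rw [box, Fintype.mem_piFinset]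

/-- The union of the boxes. -/
def cov (S : Fin m → Fin d → Finset (Fin n)) : Finset (Fin d → Fin n) := univ.biUnion (box S)

theorem mem_cov {S : Fin m → Fin d → Finset (Fin n)} {x : Fin d → Fin n} :
    x ∈ cov S ↔ ∃ j, x ∈ box S j := by
  simp [cov]

theorem sum_cov {S : Fin m → Fin d → Finset (Fin n)}
    (hdis : ∀ j j', j ≠ j' → ∀ x : Fin d → Fin n, ¬ (x ∈ box S j ∧ x ∈ box S j'))
    (f : (Fin d → Fin n) → ℝ) : ∑ x ∈ cov S, f x = ∑ j, ∑ x ∈ box S j, f x := by
  unfold cov
  rw [Finset.sum_biUnion]
  intro j _ j' _ hjj'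
  rw [Function.onFun, Finset.disjoint_left]
  exact fun x hx hx' => hdis j j' hjj' x ⟨hx, hx'⟩

theorem card_cov {S : Fin m → Fin d → Finset (Fin n)}
    (hdis : ∀ j j', j ≠ j' → ∀ x : Fin d → Fin n, ¬ (x ∈ box S j ∧ x ∈ box S j')) :
    ((cov S).card : ℝ) = ∑ j, ((box S j).card : ℝ) := by
  have := sum_cov hdis (fun _ => 1)
  simpa using this

/-- The boxes met by the line through `x` in direction `i`. -/
def hit (S : Fin m → Fin d → Finset (Fin n)) (i : Fin d) (x : Fin d → Fin n) : Finset (Fin m) :=
  univ.filter fun j => ∃ t : Fin n, Function.update x i t ∈ box S j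

theorem update_mem_iff {S : Fin m → Fin d → Finset (Fin n)} {i : Fin d} {x : Fin d → Fin n}
    {j : Fin m} (hj : j ∈ hit S i x) (t : Fin n) :
    Function.update x i t ∈ box S j ↔ t ∈ S j i := by
  obtain ⟨t', ht'⟩ := (Finset.mem_filter.1 hj).2
  rw [mem_box] at ht' ⊢
  constructor
  · intro h
    have := h i
    rwa [Function.update_self] at this
  · intro ht l
    by_cases hl : l = i
    · subst hl
      rwa [Function.update_self]
    · have := ht' l
      rw [Function.update_of_ne hl] at this ⊢
      exact this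

theorem cnt_eq {S : Fin m → Fin d → Finset (Fin n)}
    (hdis : ∀ j j', j ≠ j' → ∀ x : Fin d → Fin n, ¬ (x ∈ box S j ∧ x ∈ box S j'))
    (i : Fin d) (x : Fin d → Fin n) :
    cnt (cov S) i x = ∑ j ∈ hit S i x, (S j i).card := by
  classical
  unfold cnt
  rw [← Finset.card_biUnion]
  · congr 1
    ext t
    simp only [mem_filter, mem_univ, true_and, mem_biUnion]
    rw [mem_cov]
    constructor
    · rintro ⟨j, hj⟩
      have hj' : j ∈ hit S i x := by
        rw [hit, mem_filter]
        exact ⟨mem_univ _, t, hj⟩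
      exact ⟨j, hj', (update_mem_iff hj' t).1 hj⟩
    · rintro ⟨j, hj, ht⟩
      exact ⟨j, (update_mem_iff hj t).2 ht⟩
  · intro j hj j' hj' hjj'
    rw [Function.onFun, Finset.disjoint_left]
    intro t ht ht'
    exact hdis j j' hjj' _ ⟨(update_mem_iff hj t).2 ht, (update_mem_iff hj' t).2 ht'⟩

theorem cnt_update (U : Finset (Fin d → Fin n)) (i : Fin d) (x : Fin d → Fin n) (t : Fin n) :
    cnt U i (Function.update x i t) = cnt U i x := by
  unfold cnt
  simp only [Function.update_idem]

/-- Summing over all lines. -/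
theorem sum_update (i : Fin d) (f : (Fin d → Fin n) → ℝ) :
    ∑ x : Fin d → Fin n, ∑ t : Fin n, f (Function.update x i t) = n * ∑ x, f x := by
  classical
  let σ : (Fin d → Fin n) × Fin n → (Fin d → Fin n) × Fin n :=
    fun p => (Function.update p.1 i p.2, p.1 i)
  have hσ : Function.Involutive σ := by
    rintro ⟨x, t⟩
    simp only [σ, Function.update_self, Function.update_idem, Function.update_eq_self]
  have h1 : ∑ p : (Fin d → Fin n) × Fin n, f (σ p).1 = ∑ p : (Fin d → Fin n) × Fin n, f p.1 :=
    Equiv.sum_comp (hσ.toPerm σ) (fun p : (Fin d → Fin n) × Fin n => f p.1)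
  rw [Fintype.sum_prod_type, Fintype.sum_prod_type] at h1
  simp only [σ] at h1
  rw [h1, Finset.mul_sum]
  refine Finset.sum_congr rfl fun x _ => ?_
  rw [Finset.sum_const, card_univ, Fintype.card_fin, nsmul_eq_mul]

theorem dir_entropy {S : Fin m → Fin d → Finset (Fin n)} {k : ℕ} (hk : 1 ≤ k)
    (hne : ∀ j i, (S j i).Nonempty)
    (hdis : ∀ j j', j ≠ j' → ∀ x : Fin d → Fin n, ¬ (x ∈ box S j ∧ x ∈ box S j'))
    (hp : ∀ (i : Fin d) (x : Fin d → Fin n), k ≤ (hit S i x).card) (hn : 0 < n) (i : Fin d) :
    ((cov S).card : ℝ) * ent ((k : ℝ) - 1) n ≤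
      ∑ j, ∑ x ∈ box S j, (Real.log (cnt (cov S) i x) - Real.log (S j i).card) := by
  classical
  have hn' : (0 : ℝ) < n := by exact_mod_cast hn
  let φ : (Fin d → Fin n) → ℝ := fun x =>
    ∑ j, if x ∈ box S j then (Real.log (cnt (cov S) i x) - Real.log (S j i).card) else 0
  have h1 : ∑ j, ∑ x ∈ box S j, (Real.log (cnt (cov S) i x) - Real.log (S j i).card) =
      ∑ x, φ x := by
    simp only [φ]
    rw [Finset.sum_comm]
    refine Finset.sum_congr rfl fun j _ => ?_
    rw [Finset.sum_ite_mem, Finset.univ_inter]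
  have h2 : ∀ x : Fin d → Fin n, (cnt (cov S) i x : ℝ) * ent ((k : ℝ) - 1) n ≤
      ∑ t : Fin n, φ (Function.update x i t) := by
    intro x
    have h3 : ∑ t : Fin n, φ (Function.update x i t) =
        ∑ j ∈ hit S i x, ((S j i).card : ℝ) *
          (Real.log (cnt (cov S) i x) - Real.log (S j i).card) := by
      simp only [φ, cnt_update]
      rw [Finset.sum_comm, ← Finset.sum_subset (Finset.subset_univ (hit S i x))]
      · refine Finset.sum_congr rfl fun j hj => ?_
        simp only [update_mem_iff hj]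
        rw [Finset.sum_ite_mem, Finset.univ_inter, Finset.sum_const, nsmul_eq_mul]
      · intro j _ hj
        refine Finset.sum_eq_zero fun t _ => ?_
        rw [if_neg]
        intro ht
        apply hj
        rw [hit, mem_filter]
        exact ⟨mem_univ _, t, ht⟩
    have h4 := line_entropy (hit S i x) (fun j => (S j i).card) n k hk (hp i x)
      (fun j _ => Finset.card_pos.2 (hne j i)) (by
        rw [← cnt_eq hdis i x]
        unfold cnt
        exact (Finset.card_le_univ _).trans (by rw [Fintype.card_fin]))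
    rw [h3, cnt_eq hdis i x]
    exact h4
  have h5 := Finset.sum_le_sum fun x (_ : x ∈ (univ : Finset (Fin d → Fin n))) => h2 x
  rw [sum_update i φ, ← Finset.sum_mul] at h5
  have h6 : ∑ x : Fin d → Fin n, (cnt (cov S) i x : ℝ) = n * (cov S).card := by
    have := sum_update i (fun x : Fin d → Fin n => if x ∈ cov S then (1 : ℝ) else 0)
    rw [Finset.sum_ite_mem, Finset.univ_inter, Finset.sum_const, nsmul_eq_mul, mul_one] at this
    rw [← this]
    refine Finset.sum_congr rfl fun x _ => ?_
    unfold cnt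
    rw [Finset.card_filter]
    push_cast
    rfl
  rw [h6, mul_assoc] at h5
  rw [h1]
  exact le_of_mul_le_mul_left h5 hn'

theorem entropy_bound {S : Fin m → Fin d → Finset (Fin n)} {k : ℕ} (hk : 1 ≤ k)
    (hne : ∀ j i, (S j i).Nonempty)
    (hdis : ∀ j j', j ≠ j' → ∀ x : Fin d → Fin n, ¬ (x ∈ box S j ∧ x ∈ box S j'))
    (hp : ∀ (i : Fin d) (x : Fin d → Fin n), k ≤ (hit S i x).card) (hn : 0 < n) (hm : 0 < m) :
    (d : ℝ) * ent ((k : ℝ) - 1) n ≤ Real.log m := by
  classical
  have hm' : (0 : ℝ) < m := by exact_mod_cast hm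
  have hb : ∀ j, (0 : ℝ) < (box S j).card := by
    intro j
    have : (box S j).Nonempty := by
      rw [box, Fintype.piFinset_nonempty]
      exact fun i => hne j i
    exact_mod_cast Finset.card_pos.2 this
  have hN : (0 : ℝ) < (cov S).card := by
    rw [card_cov hdis]
    have : Nonempty (Fin m) := ⟨⟨0, hm⟩⟩
    exact Finset.sum_pos (fun j _ => hb j) Finset.univ_nonempty
  -- sum over the directions
  have h1 : (d : ℝ) * (((cov S).card : ℝ) * ent ((k : ℝ) - 1) n) ≤
      ∑ i : Fin d, ∑ j, ∑ x ∈ box S j, (Real.log (cnt (cov S) i x) - Real.log (S j i).card) := by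
    have := Finset.sum_le_sum fun i (_ : i ∈ (univ : Finset (Fin d))) =>
      dir_entropy hk hne hdis hp hn i
    rw [Finset.sum_const, card_univ, Fintype.card_fin, nsmul_eq_mul] at this
    exact this
  have h2 : ∑ i : Fin d, ∑ j, ∑ x ∈ box S j,
      (Real.log (cnt (cov S) i x) - Real.log (S j i).card) =
      (∑ x ∈ cov S, ∑ i : Fin d, Real.log (cnt (cov S) i x)) -
      ∑ j, ((box S j).card : ℝ) * Real.log (box S j).card := by
    rw [sum_cov hdis, ← Finset.sum_sub_distrib, Finset.sum_comm]
    refine Finset.sum_congr rfl fun j _ => ?_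
    rw [Finset.sum_comm, ← sub_eq_zero]
    have h3 : Real.log (box S j).card = ∑ i : Fin d, Real.log (S j i).card := by
      rw [box, Fintype.card_piFinset]
      push_cast
      rw [Real.log_prod]
      intro i _
      exact_mod_cast (Finset.card_pos.2 (hne j i)).ne'
    rw [h3]
    simp_rw [Finset.sum_sub_distrib]
    rw [Finset.sum_const, nsmul_eq_mul]
    ring
  rw [h2] at h1
  have h3 := han (cov S)
  -- Jensen
  have h4 : ∑ j, ((box S j).card : ℝ) * (Real.log (cov S).card - Real.log (box S j).card) ≤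
      (cov S).card * Real.log m := by
    have h5 : ∀ j ∈ (univ : Finset (Fin m)),
        ((box S j).card : ℝ) * (Real.log (cov S).card - Real.log (box S j).card) ≤
        ((box S j).card : ℝ) * Real.log m + ((cov S).card / m - (box S j).card) := by
      intro j _
      have h6 : Real.log ((cov S).card / (m * (box S j).card)) ≤
          (cov S).card / (m * (box S j).card) - 1 :=
        Real.log_le_sub_one_of_pos (div_pos hN (mul_pos hm' (hb j)))
      rw [Real.log_div hN.ne' (mul_pos hm' (hb j)).ne', Real.log_mul hm'.ne' (hb j).ne'] at h6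
      have h7 := mul_le_mul_of_nonneg_left h6 (hb j).le
      have h8 : ((box S j).card : ℝ) * ((cov S).card / (m * (box S j).card) - 1) =
          (cov S).card / m - (box S j).card := by
        have := (hb j).ne'
        field_simp
      rw [h8] at h7
      nlinarith
    refine le_trans (Finset.sum_le_sum h5) ?_
    rw [Finset.sum_add_distrib, ← Finset.sum_mul, Finset.sum_sub_distrib, ← card_cov hdis,
      Finset.sum_const, card_univ, Fintype.card_fin, nsmul_eq_mul]
    have : (m : ℝ) * ((cov S).card / m) = (cov S).card := by field_simp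
    rw [this]
    linarith
  simp_rw [mul_sub] at h4
  rw [Finset.sum_sub_distrib, ← Finset.sum_mul, ← card_cov hdis] at h4
  have h9 : ((cov S).card : ℝ) * ((d : ℝ) * ent ((k : ℝ) - 1) n) ≤ (cov S).card * Real.log m := by
    calc ((cov S).card : ℝ) * ((d : ℝ) * ent ((k : ℝ) - 1) n)
        = (d : ℝ) * (((cov S).card : ℝ) * ent ((k : ℝ) - 1) n) := by ring
      _ ≤ _ := h1
      _ ≤ (cov S).card * Real.log (cov S).card -
          ∑ j, ((box S j).card : ℝ) * Real.log (box S j).card := by linarith
      _ ≤ _ := h4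
  exact le_of_mul_le_mul_left h9 hN

end Pool.Agent.H37.Box
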