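import Mathlib

/-!
Han's inequality in counting form: for a finite set `U ⊆ [n]^d` with `N` elements, the sum over the
points `x` of `U` and the directions `i` of the logarithm of the number of points of `U` on the line
through `x` in direction `i` is at most `N log N`.
-/

namespace Pool.Agent.H37.Box

open Finset

/-- The number of points of `U` on the line through `x` in direction `i`. -/
def cnt {n d : ℕ} (U : Finset (Fin d → Fin n)) (i : Fin d) (x : Fin d → Fin n) : ℕ :=
  (univ.filter fun t : Fin n => Function.update x i t ∈ U).card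

theorem cnt_pos {n d : ℕ} {U : Finset (Fin d → Fin n)} {i : Fin d} {x : Fin d → Fin n}
    (hx : x ∈ U) : 0 < cnt U i x := by
  unfold cnt
  rw [Finset.card_pos]
  exact ⟨x i, by rw [mem_filter, Function.update_eq_self]; exact ⟨mem_univ _, hx⟩⟩

/-- The slice of `U` at the first coordinate `a`. -/
def slice {n d : ℕ} (U : Finset (Fin (d + 1) → Fin n)) (a : Fin n) : Finset (Fin d → Fin n) :=
  univ.filter fun y => (Fin.cons a y : Fin (d + 1) → Fin n) ∈ U

theorem mem_slice {n d : ℕ} {U : Finset (Fin (d + 1) → Fin n)} {a : Fin n} {y : Fin d → Fin n} :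
    y ∈ slice U a ↔ (Fin.cons a y : Fin (d + 1) → Fin n) ∈ U := by
  simp [slice]

/-- Sums over `U` are sums over the slices. -/
theorem sum_slice {n d : ℕ} (U : Finset (Fin (d + 1) → Fin n)) (f : (Fin (d + 1) → Fin n) → ℝ) :
    ∑ x ∈ U, f x = ∑ a : Fin n, ∑ y ∈ slice U a, f (Fin.cons a y) := by
  classical
  have h1 : ∑ x ∈ U, f x = ∑ x : Fin (d + 1) → Fin n, if x ∈ U then f x else 0 := by
    rw [Finset.sum_ite_mem, Finset.univ_inter]
  rw [h1, ← (Fin.consEquiv (fun _ : Fin (d + 1) => Fin n)).sum_comp, Fintype.sum_prod_type]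
  refine Finset.sum_congr rfl fun a _ => ?_
  rw [slice, Finset.sum_filter]
  rfl

theorem card_slice {n d : ℕ} (U : Finset (Fin (d + 1) → Fin n)) :
    (U.card : ℝ) = ∑ a : Fin n, ((slice U a).card : ℝ) := by
  have := sum_slice U (fun _ => 1)
  simpa using this

theorem cnt_succ {n d : ℕ} (U : Finset (Fin (d + 1) → Fin n)) (a : Fin n) (i : Fin d)
    (y : Fin d → Fin n) : cnt U i.succ (Fin.cons a y) = cnt (slice U a) i y := by
  unfold cnt
  congr 1
  ext t
  simp only [mem_filter, mem_univ, true_and, mem_slice]
  rw [Fin.cons_update]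

theorem cnt_zero {n d : ℕ} (U : Finset (Fin (d + 1) → Fin n)) (a : Fin n)
    (y : Fin d → Fin n) :
    (cnt U 0 (Fin.cons a y) : ℝ) = ∑ b : Fin n, if y ∈ slice U b then 1 else 0 := by
  unfold cnt
  rw [Finset.card_filter]
  push_cast
  refine Finset.sum_congr rfl fun b _ => ?_
  simp only [mem_slice, Fin.update_cons_zero]

theorem han {n d : ℕ} (U : Finset (Fin d → Fin n)) :
    ∑ x ∈ U, ∑ i : Fin d, Real.log (cnt U i x) ≤ U.card * Real.log U.card := by
  classical
  induction d with
  | zero =>
    simp only [Finset.univ_eq_empty, Finset.sum_empty, Finset.sum_const_zero]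
    positivity
  | succ d ih =>
    rcases Finset.eq_empty_or_nonempty U with rfl | hne
    · simp
    have hN : (0 : ℝ) < U.card := by exact_mod_cast Finset.card_pos.2 hne
    -- the first coordinate
    have h1 : ∑ a : Fin n, ∑ y ∈ slice U a,
        (Real.log (cnt U 0 (Fin.cons a y)) + Real.log (slice U a).card - Real.log U.card) ≤ 0 := by
      have hle : ∀ a : Fin n, ∀ y ∈ slice U a,
          Real.log (cnt U 0 (Fin.cons a y)) + Real.log (slice U a).card - Real.log U.card ≤
            (cnt U 0 (Fin.cons a y) : ℝ) * (slice U a).card / U.card - 1 := by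
        intro a y hy
        have hc : (0 : ℝ) < cnt U 0 (Fin.cons a y) := by
          exact_mod_cast cnt_pos (mem_slice.1 hy)
        have hs : (0 : ℝ) < (slice U a).card := by
          exact_mod_cast Finset.card_pos.2 ⟨y, hy⟩
        rw [← Real.log_mul hc.ne' hs.ne', ← Real.log_div (mul_pos hc hs).ne' hN.ne']
        exact Real.log_le_sub_one_of_pos (div_pos (mul_pos hc hs) hN)
      refine le_trans (Finset.sum_le_sum fun a _ => Finset.sum_le_sum (hle a)) ?_
      have h2 : ∑ a : Fin n, ∑ y ∈ slice U a,
          ((cnt U 0 (Fin.cons a y) : ℝ) * (slice U a).card / U.card - 1) =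
          (∑ a : Fin n, ∑ y ∈ slice U a,
            (cnt U 0 (Fin.cons a y) : ℝ) * (slice U a).card / U.card) - U.card := by
        rw [card_slice U, ← Finset.sum_sub_distrib]
        refine Finset.sum_congr rfl fun a _ => ?_
        rw [Finset.sum_sub_distrib, ← card_slice U]
        simp
      rw [h2, sub_nonpos]
      have h3 : ∑ a : Fin n, ∑ y ∈ slice U a,
          (cnt U 0 (Fin.cons a y) : ℝ) * (slice U a).card / U.card ≤
          ∑ a : Fin n, ∑ y : Fin d → Fin n,
          (cnt U 0 (Fin.cons a y) : ℝ) * (slice U a).card / U.card := by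
        refine Finset.sum_le_sum fun a _ => ?_
        exact Finset.sum_le_sum_of_subset_of_nonneg (Finset.subset_univ _)
          fun y _ _ => by positivity
      refine le_trans h3 ?_
      have h4 : ∀ a : Fin n, ∑ y : Fin d → Fin n,
          (cnt U 0 (Fin.cons a y) : ℝ) * (slice U a).card / U.card = (slice U a).card := by
        intro a
        have h5 : ∑ y : Fin d → Fin n, (cnt U 0 (Fin.cons a y) : ℝ) = U.card := by
          rw [card_slice U]
          simp_rw [cnt_zero]
          rw [Finset.sum_comm]
          refine Finset.sum_congr rfl fun b _ => ?_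
          rw [Finset.sum_ite_mem]
          simp
        rw [← Finset.sum_div, ← Finset.sum_mul, h5]
        field_simp
      rw [Finset.sum_congr rfl fun a _ => h4 a, ← card_slice U]
    -- the other coordinates
    rw [sum_slice U (fun x => ∑ i : Fin (d + 1), Real.log (cnt U i x))]
    have h6 : ∀ a : Fin n, ∑ y ∈ slice U a, ∑ i : Fin (d + 1), Real.log (cnt U i (Fin.cons a y)) ≤
        ∑ y ∈ slice U a, (Real.log (cnt U 0 (Fin.cons a y)) + Real.log (slice U a).card) := by
      intro a
      simp_rw [Fin.sum_univ_succ, cnt_succ]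
      rw [Finset.sum_add_distrib, Finset.sum_add_distrib]
      have := ih (slice U a)
      rw [Finset.sum_const, nsmul_eq_mul]
      linarith
    refine le_trans (Finset.sum_le_sum fun a _ => h6 a) ?_
    have h7 : ∑ a : Fin n, ∑ y ∈ slice U a,
        (Real.log (cnt U 0 (Fin.cons a y)) + Real.log (slice U a).card - Real.log U.card) =
        (∑ a : Fin n, ∑ y ∈ slice U a,
          (Real.log (cnt U 0 (Fin.cons a y)) + Real.log (slice U a).card)) -
          U.card * Real.log U.card := by
      conv_rhs => rw [card_slice U, Finset.sum_mul, ← Finset.sum_sub_distrib]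
      refine Finset.sum_congr rfl fun a _ => ?_
      rw [Finset.sum_sub_distrib, ← card_slice U]
      simp
    rw [h7, sub_nonpos] at h1
    exact h1

end Pool.Agent.H37.Box
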